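import Mathlib
import Pool.Agent.R931.GD.Final

/-!
# The Mumford-Tate conjecture at 100 percent of the primes `ℓ` for motives with an arbitrary motivic
# Galois group

Let `M` be a pure motive over a number field `K`, or over a finitely generated field `k` of characteristic
zero (a summand of the cohomology `H ^ m (X)` of a smooth projective variety), on which a number
field `E`, Galois over `ℚ`, acts (`E = ℚ` is allowed); the `ℓ`-adic realizations are free of rank `n` over
`E ⊗ ℚ_ℓ`.  `Γ` is the Galois group of `K` (or the fundamental group of a model over a number field `K`,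
and `s` is given by a `K`-rational point).  Outside of a finite set `S` of places `v` of `K` the motive has
good reduction (along the point), with Frobenius polynomials `P v` independent of `ℓ`.

Let `𝔤 ℓ` be the Lie algebra of the `ℓ`-adic motivic Galois group (for example for motivated cycles); all
we use is collected in `IsMotivic`: it is reductive, it is determined by its tensors, and these are Tate
tensors; and it commutes with `E`.

**Theorem.**  Suppose that
(0) at one place `v₀` there are `r` multiplicatively independent Frobenius eigenvalues, where `r` is the rank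
of the motivic Galois group (technical conditions for `K ≠ ℚ`: the prime number `p₀` below `v₀` is not
ramified in `K`, there is good reduction at the places above `p₀`, and the eigenvalues at these places are
independent; for `K = ℚ` these conditions are void);
(1) and (2), as in the theorem on endomorphisms of motives at 100 percent of the primes: `u_0, ..., u_m`
are places of good reduction such that the roots of `P_{u_i}` are simple and no quotient of two different
roots is a root of unity, `F` is the intersection of the splitting fields of these polynomials, and for every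
automorphism `g` of the algebraic closure of `ℚ`, of order `f` on `E`,
* for every `d` with `0 < d < n [E : ℚ]` which is not divisible by `n f` there are a place `v` of this type
and an automorphism `w` which agrees with `g` on `F` such that no set of `d` roots of `P_v` is stable under
`w`;
* there are a place `v` of this type and an automorphism `w` which agrees with `g` on `F` such that `w ^ f`
has a fixed point in every nonempty set of roots of `P_v` which is stable under `w` and whose number of
elements is divisible by `n f`.
Then for all prime numbers `ℓ` outside of a set of natural density zero the `ℓ`-adic representation is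
semisimple (over all finite extensions of `k`), and the `ℓ`-adic Tate tensors of all tensor powers of the
realization and its dual are exactly the tensors fixed by the (identity component of the) motivic Galois
group: the Mumford-Tate conjecture holds at `ℓ`, and the Tate conjecture for all motives in the
tensor category generated by `M` (up to the question whether motivated cycles are algebraic).

All hypotheses are conditions on finitely many Frobenius polynomials (and on the rank of the motivic group).
Nothing is assumed about the `ℓ`-adic representations at single primes, and nothing about the type of the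
motivic Galois group: for example it applies to motives whose motivic Galois group has the type `E_7` in the
representation of dimension `56` (the Weyl group contains elements with the cycle types `14^4` and `18^3 2`
on the weights), `B_3` in the spin representation (cycle types `4^2` and `6 2`), or `E_6` in dimension `27`
over an imaginary quadratic field `E`, if the Frobenius polynomials have the generic Galois groups.
Earlier results at 100 percent of the primes determine the endomorphisms only, or suppose that the motivic
group is a symplectic, orthogonal or unitary group over `E`.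

Idea of the proof.  By the theorem on endomorphisms, for 100 percent of the primes the commutant of every
open subgroup of `Γ` is `E ⊗ ℚ_ℓ`.  By (0) and the `ℓ`-adic six exponentials theorem the representations are
semisimple for all `ℓ ≠ p₀`, and the Lie algebra `𝔥` of the endomorphisms which kill all Tate tensors is a
reductive subalgebra of `𝔤` which contains a maximal torus of `𝔤`.  A reductive subalgebra of maximal rank
with the same commutant is equal to `𝔤` (`Pool.Agent.R931.BD.max_rank`, an elementary argument with
highest weights and `sl₂`-triples, which does not use the classification).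
-/

set_option autoImplicit false

namespace Pool.Agent.Results.MP_3703a7_ag.ArbitraryGroupDensityOne

open NumberField IsDedekindDomain Polynomial Module Pool.Agent.Y114.TF Pool.Agent.Y114.GF
  Pool.Agent.Y114.MU Pool.Agent.Y114.RM Pool.Agent.R931.GD

theorem result (K : Type) [Field K] [NumberField K] (Γ : Type) [Group Γ] [TopologicalSpace Γ]
    [IsTopologicalGroup Γ] [CompactSpace Γ] (s : Gal(AlgebraicClosure K/K) →* Γ)
    (hs : Continuous s)
    -- the `ℓ`-adic realizations
    (N : ℕ) (ρ : ∀ (ℓ : ℕ) [Fact ℓ.Prime], Rep1 Γ N ℓ) (hρ : ∀ (ℓ : ℕ) [Fact ℓ.Prime], Conts (ρ ℓ))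
    -- good reduction outside of a finite set of places
    (wt : ℤ) (S : Set (HeightOneSpectrum (𝓞 K))) (hS : S.Finite)
    (P : HeightOneSpectrum (𝓞 K) → ℚ[X])
    (hP : ∀ (ℓ : ℕ) [Fact ℓ.Prime], ∀ v ∉ S, ¬ Above v ℓ →
      GoodReduction (restrictTo (ρ ℓ) s) () wt v (P v))
    -- the Lie algebras of the motivic Galois groups
    (𝔤 : ∀ (ℓ : ℕ) [Fact ℓ.Prime], End1 N ℓ) (h𝔤 : ∀ (ℓ : ℕ) [Fact ℓ.Prime], Motivic (ρ ℓ) (𝔤 ℓ))
    -- the coefficients
    (E : IntermediateField ℚ (AlgebraicClosure ℚ)) [FiniteDimensional ℚ E] [Normal ℚ E]
    (n : ℕ) (hn : 0 < n) (hN : N = n * Module.finrank ℚ E)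
    (ε : ∀ (ℓ : ℕ) [Fact ℓ.Prime], E →+* End ℚ_[ℓ] (Fin N → ℚ_[ℓ]))
    (hε : ∀ (ℓ : ℕ) [Fact ℓ.Prime], Coefficients n (ρ ℓ) (𝔤 ℓ) (ε ℓ))
    -- the place of maximal rank
    (r : ℕ) (hrank : ∀ (ℓ : ℕ) [Fact ℓ.Prime], RankLE (𝔤 ℓ) r)
    (p₀ : ℕ) (hp₀ : p₀.Prime) (hunr : UnramifiedIn K p₀) (hp₀S : ∀ v, Above v p₀ → v ∉ S)
    (hind₀ : IndependentPlaces (fun v (_ : Unit) => P v) p₀)
    (v₀ : HeightOneSpectrum (𝓞 K)) (hv₀ : Above v₀ p₀) (hr : IndepRoots r {P v₀})
    -- the other places
    (m : ℕ) (u : Fin (m + 1) → HeightOneSpectrum (𝓞 K)) (hu : ∀ i, IsRegularPlace S P (u i))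
    (h1 : ∀ (g : Gal(AlgebraicClosure ℚ/ℚ)) (d : ℕ), 0 < d → d < N → ¬ n * orderOn E g ∣ d →
      ∃ (v : HeightOneSpectrum (𝓞 K)) (w : Gal(AlgebraicClosure ℚ/ℚ)), IsRegularPlace S P v ∧
        (∀ x, (∀ i, x ∈ splittingField (P (u i))) → w x = g x) ∧
        ∀ T, IsStableSet w (P v) T → T.ncard ≠ d)
    (h2 : ∀ g : Gal(AlgebraicClosure ℚ/ℚ),
      ∃ (v : HeightOneSpectrum (𝓞 K)) (w : Gal(AlgebraicClosure ℚ/ℚ)), IsRegularPlace S P v ∧
        (∀ x, (∀ i, x ∈ splittingField (P (u i))) → w x = g x) ∧
        ∀ T, IsStableSet w (P v) T → T.Nonempty → n * orderOn E w ∣ T.ncard →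
          ∃ x ∈ T, (w ^ orderOn E w) x = x) :
    HasDensityZero {ℓ | ∃ _ : Fact ℓ.Prime,
      ¬ (Semisimple (ρ ℓ) ∧ TateTensorsOf (ρ ℓ) (𝔤 ℓ))} :=
  main K Γ s hs N wt S hS P ρ hρ hP E n hn hN 𝔤 h𝔤 ε hε r hrank p₀ hp₀ hunr hp₀S hind₀ v₀ hv₀ hr
    m u hu h1 h2

end Pool.Agent.Results.MP_3703a7_ag.ArbitraryGroupDensityOne
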