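import Mathlib
import Pool.Agent.R931.UT.Main

/-!
# The Tate conjecture for all tensor powers of motives with multiplication by CM fields

Let `M i` be finitely many pure motives of the same weight `w` over a number field `F`, of any Hodge type
(they need not come from abelian varieties), with coefficients in number fields `E i` which are CM
fields or totally real fields, of rank `n i` over `E i`, with polarizations for which the adjoint of the
multiplication by `e` is the multiplication by the complex conjugate `c(e)`. Let `ℓ` be a prime number and
`K` a finite extension of `ℚ_ℓ` (which contains the conjugates of the fields `E i` and the Frobenius
eigenvalues at one place `v₀`). The `ℓ`-adic realizations with coefficients `K` are direct sums of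
the parts of dimension `n i` on which `E i` acts by the embeddings `τ : E i → K` (`Realization`); the
polarization pairs the parts for `τ` and `τ ∘ c`.

At the places `v` of a set `G` of places of good reduction the geometric Frobenius elements act on the
part for `τ` with the characteristic polynomial `τ (P v i)`, `P v i` a polynomial over `E i`, pure of
weight `w`. Let `T` be a set of at least three prime numbers `≠ ℓ`, unramified in `F`, such that all
places above them are in `G`. Suppose:

(1) for ONE place `v₀` of `G`, not above `ℓ`, there are only the trivial multiplicative relations between the
Frobenius eigenvalues, those which come from `a * conj a = q ^ w` (`RelFree`): the Frobenius torus has the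
maximal rank `1 + (∑ n i [E i : ℚ]) / 2`;

(2) for every `i` and `0 < d < n i` there is ONE prime number `p` in `T` for which no choice of `d`
eigenvalues (roots of the same conjugate of `P v i`) at all places `v` above `p` has a product which
is `p ^ (w d [F : ℚ] / 2)` up to a root of unity (`HasRelation`);

(3) for every `i` the Frobenius elements at the places of `G` for which `P v i` is neat (no
quotient of two roots of the same conjugate is a root of unity) generate the Galois group
topologically as a normal subgroup. (This holds if these places have a density greater than `1 / 2`, and is
necessary: it excludes motives which are induced from finite extensions of `F`, for which there are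
additional classes.)

Theorem. Then the `ℓ`-adic realizations are semisimple for all subgroups of finite index of the
Galois group, and all homomorphisms between their tensor powers and Tate twists which commute with a subgroup
of finite index are linear combinations of products of the pairings of the parts, that is, they are
generated by the classes of the multiplications by the elements of the fields `E i` and by the
polarizations. So they come from morphisms of motives: the map
`Hom(M, M') ⊗ ℚ_ℓ → Hom_{G_F}(M_ℓ, M'_ℓ)` is surjective (and so bijective) for all motives `M`, `M'` in the
tensor category generated by the `M i` (direct summands of tensor powers, Tate twists).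

There is no hypothesis about the representation at `ℓ` besides its Frobenius polynomials; neither
semisimplicity nor irreducibility nor anything about the image is assumed, and `ℓ` is any prime number
(different from the finitely many prime numbers used in (1) and (2)).

The condition (2) is empty for rank one (CM motives) and for rank two and totally real `E i` it says that
some Frobenius eigenvalue is not a root of unity times `p ^ (w / 2)` (one place above `p`);
for rank `> 2` the fields `E i` have to be CM fields. Examples: for families over `F` with a
large unitary monodromy group of a signature `(a, b)`, `a ≠ b` (for instance the eigenspaces of `ℚ(ζ_3)`,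
`ζ_3` in `F`, in the middle cohomology of triple covers of the projective space branched along a
hypersurface), the conditions hold for the fibres outside of a thin set of parameters which do not
come from proper subfields.

The proof. For a stable subspace of dimension `d` of a part the determinant is an abelian character with
algebraic Frobenius values, and by the `ℓ`-adic six exponentials theorem (library `Pool.Agent.Y115`)
its transfer to `ℚ` is a power of the cyclotomic character up to a character of finite order; so (2)
gives irreducibility. A subspace of a part which is stable under a normal subgroup `Δ` of finite index is
stable under Frobenius elements with neat polynomials, as they are polynomials in their powers; by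
(3) it is stable under the whole Galois group. With an eigenvector of the Frobenius element at `v₀` this gives
absolute irreducibility under `Δ`, so semisimplicity, and the commutant of `Δ` on the sum is
`∏ K`. Finally the Lie algebra of the endomorphisms which kill all Tate tensors contains a Cartan
subalgebra of the Lie algebra of the symplectic similitudes (by (1)), and by the first fundamental
theorems for products of symplectic and general linear groups (library `Pool.Agent.H204R3`) all Tate
tensors are generated by those of degree two.
-/

set_option autoImplicit false

namespace Pool.Agent.Results.MP_3703a7_ag.CMCoefficients

open NumberField IsDedekindDomain Polynomial Module Pool.Agent.Y114.TF Pool.Agent.Y114.GF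
  Pool.Agent.Y114.MU Pool.Agent.H204R3.GP Pool.Agent.R931.UT

theorem result {F : Type} [Field F] [NumberField F] {ι : Type} [Fintype ι]
    -- the fields of coefficients, and the complex conjugations
    {E : ι → Type} [∀ i, Field (E i)] [∀ i, NumberField (E i)] (c : ∀ i, E i →+* E i)
    (hc : IsConj E c) (n : ι → ℕ) (w : ℕ)
    -- the realizations
    (ℓ : ℕ) [Fact ℓ.Prime] (K : Type) [NormedField K] [CharZero K] [NormedAlgebra ℚ_[ℓ] K]
    [FiniteDimensional ℚ_[ℓ] K] (R : Realization F c n ℓ K w)
    -- the places of good reduction
    (G : Set (HeightOneSpectrum (𝓞 F))) (P : HeightOneSpectrum (𝓞 F) → ∀ i, (E i)[X])
    (hG : ∀ v ∈ G, R.GoodAt v (P v))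
    (T : Set ℕ) (hT3 : 3 ≤ T.encard)
    (hT : ∀ p ∈ T, p.Prime ∧ p ≠ ℓ ∧ UnramifiedIn F p ∧ ∀ v, Above v p → v ∈ G)
    -- (1) one place without relations
    (v₀ : HeightOneSpectrum (𝓞 F)) (hv₀ : v₀ ∈ G) (hv₀ℓ : ¬ Above v₀ ℓ) (hfree : RelFree (P v₀))
    (hsplit : ∀ x : Emb E K, (polyAt (P v₀) x).Splits)
    -- (2) no relations of size `d`
    (hno : ∀ i d, 0 < d → d < n i → ∃ p ∈ T, ¬ HasRelation (fun v => P v i) (w : ℤ) p d)
    -- (3) the neat places generate the Galois group
    (hgen : ∀ i, GeneratedByNeat G fun v => P v i) :
    FiniteIndexSemisimple (sumRep R.rep) ∧
      HomsGeneratedBy (sumRep R.rep) R.chi R.form R.partForm :=
  main hc R G P hG T hT3 hT v₀ hv₀ hv₀ℓ hfree hsplit hno hgen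

end Pool.Agent.Results.MP_3703a7_ag.CMCoefficients
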