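import Pool.Agent.R929.ME.Final

/-!
# Galois homomorphisms from tensor powers of a polarized motive to an arbitrary motive

Let `F` be a number field, `Γ` its Galois group, `K` an algebraic closure of `ℚ_p` and `χ` the action on
the inverse Tate twist. Let `M₀` be a pure motive over `F` of any weight `w` with a polarization
`M₀ ⊗ M₀ → 1(-w)`. Its realization `T = M₀,p ⊗ K` has a nondegenerate form `B` with the multiplier
`μ = χ ^ w`, symmetric for even `w` and alternating for odd `w`. Let `T = ⨁ U c` be a decomposition over
a finite extension of `F` (with the Galois group `Δ`) into subspaces which are irreducible over all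
finite extensions, such that `U c` is orthogonal to all the others, or to all the others but one,
`U (star c)`. (`IsolatedPieces`) Suppose that

* each `U c` of dimension at least two contains an eigenvector of some element of `Γ` (for instance of a
  Frobenius element at a place of good reduction) with an isolated eigenvalue `a` (`~` is the
  equality up to a root of unity): the eigenvalues `~ a` on `T` have altogether multiplicity one; if
  `a δ ~ β γ` for eigenvalues `β`, `γ`, `δ` on `T` then `β ~ a` or `γ ~ a` or `a δ ~ q ^ w`; and no
  positive power of `β / a`, `β` an eigenvalue on `T` with `β ≁ a`, is in a given group `H`;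
* for `star c ≠ c` no positive power of the determinant on `U c` of some element of `Γ` is in the group
  generated by `H` and the determinants on the `U d` with `d ≠ c, star c`.

Let `M` be a direct summand of `M₀ ^ r` with the realization `V`, and let `M'` be an **arbitrary** pure
motive over `F` (of any weight; its realization `E` may also be any other finite-dimensional
representation, semisimplicity is not supposed) such that the groups `H` contain the
eigenvalues on `E` of the elements in question and `q ^ w`. Let `n` be any natural number or, if `w` is
even, a natural number smaller than the dimensions of the self-dual pieces (`star c = c`).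

**Theorem.** Let `F'` be any finite extension of the field with the Galois group `Δ`, `Δ'` its Galois group.
A `K`-linear map `V ^ ⊗ n → E` is a homomorphism of Galois representations over `F'` if and only if it is a
combination of products

`v_1 ⊗ ... ⊗ v_n ↦ β_1(v_a, v_b) ⋯ β_m(v_c, v_d) w`,  `n = 2 m`,

(with any distribution of the variables) of Galois homomorphisms `β_l : V ⊗ V → K(-w)` and a Galois
homomorphism `K(-mw) → E` over `F'`, that is, a vector `w` of `E` on which `Δ'` acts by `χ ^ (m w)`.

So `Hom_{F'}(M_p ^ ⊗ n, M'_p) = 0` for odd `n`, and for `n = 2 m` the surjectivity of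
`ρ_p : Hom(M ^ ⊗ n, M') ⊗ ℚ_p → Hom_{G_{F'}}(M_p ^ ⊗ n, M'_p)`, the Tate conjecture for the pair of the motives
`M ^ ⊗ n` and `M'`, and also for all direct summands of `M ^ ⊗ n`, follows from the Tate conjecture
for the pairs `(M ⊗ M, 1(-w))` and `(1(-mw), M')`. By Faltings the first one is known for `M = h^1(A)`, `A` an abelian
variety, so that the Tate conjecture for the pairs `(h^1(A) ^ ⊗ n, M')` is equivalent to the statement that
the Tate classes of `M'` of weight `n` are algebraic if `A` satisfies the above conditions. By duality
`M'` may also be replaced by `M' ⊗ M ^ ⊗ l`.

The proof: the operators on `T` and `E` which are given by additive functions of the eigenvalues of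
elements of `Γ` generate a Lie algebra of operators which kill the homomorphisms. An isolated
eigenvalue gives the operator of rank two which belongs to `a` and `q ^ w / a` and which is zero on
`E`; its conjugates generate the full orthogonal or symplectic Lie algebra of `U c`, or the Lie algebra
of `U c` modulo scalars if `star c ≠ c`. Then one uses the first fundamental theorem of invariant
theory with values in a module.
-/

namespace Pool.Agent.Results.MP_3703a7_ag.IsolatedFrobeniusEigenvalues

open Module Pool.Agent.Y130.MT Pool.Agent.R929.ME

/-- **Galois homomorphisms from tensor powers of a polarized motive to an arbitrary motive.** -/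
theorem result {K : Type} [Field K] [CharZero K] [IsAlgClosed K] {Γ : Type} [Group Γ]
    {T : Type} [AddCommGroup T] [Module K T] [FiniteDimensional K T]
    {V : Type} [AddCommGroup V] [Module K V]
    {E : Type} [AddCommGroup E] [Module K E] [FiniteDimensional K E]
    (τ : Representation K Γ T) (ρ : Representation K Γ V) (σ : Representation K Γ E)
    (μ : Γ →* K) (s : ℤ) (hs : s = 1 ∨ s = -1) (B : T →ₗ[K] T →ₗ[K] K)
    {C : Type} (U : C → Submodule K T) (star : C → C) (Δ : Subgroup Γ) (H : Γ → Subgroup Kˣ)
    (hT : IsolatedPieces τ μ s B U star Δ H) (hV : SummandOfCopies τ ρ)
    (hE : ContainsEigenvalues H μ σ) (n : ℕ)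
    (hn : s = 1 → ∀ c, star c = c → n < finrank K (U c))
    (Δ' : Subgroup Γ) (hle : Δ' ≤ Δ) (hfin : Δ'.FiniteIndex)
    (φ : MultilinearMap K (fun _ : Fin n => V) E) :
    IsHomOver ρ σ Δ' φ ↔ φ ∈ Submodule.span K {φ' | IsProductOver ρ μ σ Δ Δ' φ'} := by
  refine ⟨fun hφ => homs hs hT hV hE hn hle hfin hφ, fun hφ => ?_⟩
  induction hφ using Submodule.span_induction with
  | mem φ hφ => exact isHomOver_of_product hle hφ
  | zero => intro g _ v; simp
  | add φ ψ _ _ h1 h2 =>
    intro g hg v
    rw [MultilinearMap.add_apply, MultilinearMap.add_apply, h1 g hg v, h2 g hg v, map_add]
  | smul a φ _ h1 =>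
    intro g hg v
    rw [MultilinearMap.smul_apply, MultilinearMap.smul_apply, h1 g hg v, map_smul]

end Pool.Agent.Results.MP_3703a7_ag.IsolatedFrobeniusEigenvalues
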