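import Mathlib
import Pool.Agent.R931.ZG.Law

/-!
# A zero-one law for the Mumford-Tate conjecture

Let `M` be a pure motive over a number field `K`, or over a finitely generated field `k` of characteristic
zero (a summand of the cohomology `H ^ m (X)` of a smooth projective variety, or a sum of such motives of
the same weight), with `ℓ`-adic realizations of dimension `N`.  `Γ` is the Galois group of `K` (or the
fundamental group of a model over a number field `K`, and `s` is given by a `K`-rational point).  Outside of a
finite set `S` of places `v` of `K` the motive has good reduction (along the point), with Frobenius
polynomials `P v` independent of `ℓ`, and `(q v) ^ c` times a Frobenius eigenvalue is an algebraic integer.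

Let `𝔤 ℓ` be the Lie algebra of the `ℓ`-adic motivic Galois group (for example for motivated cycles); all
we use is collected in `IsMotivic`: it is reductive, it is determined by its tensors, and these are Tate
tensors; `r` is its rank.

The *relations* between numbers `z_1, ..., z_N` are the vectors `n` of integers such that the product of
the `z_i ^ {n_i}` is a root of unity.  Let `R` be a set of vectors which has rank at most `N - r`
(for the motivic Galois group `G` one takes the relations between the weights of the maximal torus) and
let `A` be the group of permutations of `{1, ..., N}` which preserve `R` (the automorphism group of the
system of weights, it contains the Weyl group).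
An element `γ` of the image of the Galois group at a prime `p` has the *type* `a` (with respect to `p` and to
an automorphism `τ` of the algebraic closure of `ℚ_p`) if the eigenvalues of `ρ_p(γ)` can be written as
`z_1, ..., z_N` with relations `R` and `τ (z_i) = z_{a(i)}` (no quotient of two of them being a root of
unity).  In the same way we define the types of the elements of the Lie algebra of the image, with the linear
relations between the eigenvalues.  (The types of Frobenius elements can be read off from the Frobenius
polynomials; if the image is open in the motivic Galois group then all types of `𝔤 p` occur.)

**Theorem** (zero-one law).  Let `T j` (for `j` in any index set) be sets of types which occur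
at primes `p j` for automorphisms `τ j`; for instance one prime `p` and one `τ`.  Suppose that the algebra of
the endomorphisms which commute with `𝔤 ℓ` has dimension `m` (at least), and that `A`, the sets `T j` and the
number `m` satisfy the condition on finite permutation groups below.  Then for all
prime numbers `ℓ` outside of a set of natural density zero the `ℓ`-adic representation is semisimple (over
all finite extensions of `k`), and the `ℓ`-adic Tate tensors of all tensor powers of the realization and its
dual are exactly the tensors fixed by the (identity component of the) motivic Galois group: the Mumford-Tate
conjecture holds at `ℓ`, and the Tate conjecture for all motives in the tensor category generated by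
`M` (up to the question whether motivated cycles are algebraic).

**The condition.**  For a group `N` of permutations let `Λ_N` be the lattice which is generated by `R` and
by the vectors `e_i - e_{a(i)}`, `a` in `N`.  The *lattice condition* `LatticeFull` for `N` is: for every
group of permutations `B` which contains `N` and has at least `m` orbits, the vectors `e_i - e_{b(i)}`, `b` in
`B`, are contained in `Λ_N`.  It is satisfied if `N` has at most `m` orbits (`latticeFull_of_orbits`); if
`m ≤ 1`, for instance if the motivic Galois group acts irreducibly, it says that `Λ_N` contains all the vectors
`e_i - e_j`.
We suppose: if `M` is a normal subgroup of a subgroup `G` of `A` such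
that the elements of `T j` are, for every `j`, conjugate in `A` to elements of a coset of `M` in `G`, and if
`N` is a subgroup of `A` with an element `y` of the normalizer of `N` in `A` such that all elements of some
coset `M * g` (`g` in `G`) are conjugate in `A` to elements of `N * y`, then `N` satisfies the lattice condition.
(`G` is the Galois group over `ℚ` of the eigenvalues at a good place, `M` is the subgroup over the intersection
of the splitting fields of all good places, `M * g` is the coset of the Frobenius at `ℓ`, and `N` is a group
which preserves the sets of eigenvalues on the invariant subspaces of the `ℓ`-adic realization.)  This can be
checked by a finite computation.  It is true in the following cases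
(see `forces_lattice2`, `forces_of_orbitBound`, `orbitBound_of_central` and `orbitBound_of_invariable`): `A = W * Z`,
where `Z` is contained in the center of `A`, the group `W` satisfies the lattice condition (for example it has at
most `m` orbits), and for some `j` the set `T j` contains `1` and a set which generates `W` invariably (for
example all of `W`); or the union of the `T j` generates `A` invariably, `A` has at most `m` orbits, and `A` is the
only normal subgroup `H` of `A` such that for every `j` all elements of `T j` are conjugate modulo `H`.

**Consequence.**  Let `G` be the motivic Galois group with the Weyl group `W`, and suppose that the weights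
of the realization have multiplicity one, and that the condition holds for `T = W`.  If the Mumford-Tate
conjecture is true at a single prime number `p` where `G` is split (in the form that the image of Galois is
open), then it is true for `100` percent of the prime numbers, since every element of the Weyl group is the
type of a maximal torus.  So for a given motive the conjecture either fails at all primes where `G` is
split, or it holds at `100` percent of all primes.  This applies to the general symplectic groups, the
general linear and unitary groups (the standard representation and its dual), the spin
representations of the groups of type `B_n`, the half spin representations of `D_n`, `n > 4`, the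
representations of dimension `27` (with the dual one, if necessary) of `E_6` and `56` of `E_7` (with
the scalars), ..., and to sums of such representations and motives with coefficients, where the irreducible
constituents are the orbits of `W`.
It applies also to irreducible representations whose weights form several orbits of `W`: the lattice `Λ_W` modulo
the relations is generated by the multiples `⟨λ, α^∨⟩ α` of the roots `α`, for the weights `λ`.  So it contains the
roots, and `W` satisfies the lattice condition, if for every root `α` the greatest common divisor of the numbers
`⟨λ, α^∨⟩` is one, and the only exceptions to this are the groups with a direct factor `SO(2n+1)`, `n ≥ 1`.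
Examples are the representation of dimension `7` of `G_2` (see `latticeFull_of_zero`; motives with this
group were constructed by Dettweiler-Reiter and by Yun), the representation of dimension `14` of `Sp_6`
with highest weight `e_1 + e_2 + e_3`, the odd symmetric powers of the standard representation of `SL_2`, and the
tensor products of such representations (with the scalars, and if `A = W * Z`).

**Earlier results.**  At 100 percent of the primes there was `ArbitraryGroupDensityOne`, with cycle type
conditions on Frobenius polynomials relative to the intersection `F` of the splitting fields (which must be
controlled, and which cannot be satisfied for example for spin groups).  For `100` percent of all primes and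
groups `A` larger than `W` nothing was known to follow from one prime: an element of `A`
outside of `W` can be realized by the Galois group of a number field, and the Frobenius at `ℓ` in this field is
not known; this is solved here with cosets, and by labelling the invariant subspaces over the
algebraic closure of `ℚ_ℓ`, so that no place with eigenvalues in `ℚ_ℓ` is needed.  Moreover there is no
condition on `K` (no prime number with independent eigenvalues at the places above it), and no polarization:
semisimplicity is deduced from the labels.  For abelian varieties the Mumford-Tate conjecture is independent
of `ℓ` (Larsen-Pink), using the theorem of Faltings; here the motives are arbitrary.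

Idea of the proof.  Call a place good if no quotient of two Frobenius eigenvalues is a root of unity and
if there are `r` multiplicatively independent ones.
(1) Given types at finitely many primes `p_j`, there is a good place `v` whose Frobenius eigenvalues have, for
suitable orderings, the same relations, and the same action of the Galois group of `ℚ_{p_j}`, for all `j`
(one approximates tangent vectors, and only finitely many relations have to be avoided, since the heights of
the relations between Weil numbers with `N` and the degree of `K` fixed are bounded).
(2) Let `F` be the intersection of the splitting fields of the `P v` for all good `v`.  By (1) there is a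
good place `v` with Galois groups `M ≤ G ≤ A` over `F` and over `ℚ` as in the condition.  By an argument with
extensions of `F` which are independent over `F`, for all `ℓ` outside of a set of density zero, all
elements of `M * g` occur at good places as the action of a fixed Frobenius element of the Galois group of
`ℚ_ℓ` on the eigenvalues, where `g` depends on the Frobenius at `ℓ` in `F`.
(3) Let `U` be a subspace of the realization, over the algebraic closure of `ℚ_ℓ`, which is stable under an
open subgroup.  At every good place `v`, `U` determines a set of Frobenius eigenvalues.  For two good
places consider the pencil of tangent vectors which is spanned by the logarithms of the Frobenius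
elements: its members have at most `r` independent eigenvalues, so there is a bijection between the two
sets of eigenvalues which preserves the relations and the sets determined by all `U` at the same
time.  The Frobenius element of `ℚ_ℓ` permutes the subspaces `U`; so we obtain a group `N` which preserves
the sets of all `U`, and a coset `N * y` which contains conjugates of all elements of `M * g`.
(4) Let `𝔥 ≤ 𝔤 ℓ` be the Lie algebra of the endomorphisms which kill all Tate tensors and preserve the
invariant subspaces, and let `𝔱` be the Lie algebra of a Frobenius torus of rank `r`; it is a Cartan subalgebra of
`𝔤 ℓ` contained in `𝔥`.  There are only finitely many `𝔥`-stable subspaces over the algebraic closure, as they are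
sums of weight spaces of `𝔱`, and they are permuted by the Galois group; so they are stable under an open
subgroup, and their sets of weights are stable under `N`.
(5) Let `δ` be the sum of the roots of `𝔥` and `d` the corresponding element of `𝔱` (for the trace form).  Then
`β(d) ≥ 0` for all roots `β` of `𝔥` (a trace on an `sl_2`-stable space is a natural number).  So the sums of the
weight spaces for the weights `λ` with `λ(d) ≥ x` are stable under `𝔥`, and `N` preserves the values `λ(d)`.
Hence `d` is orthogonal to `Λ_N`.  The roots of `𝔤 ℓ` are differences of weights which are not separated by the
endomorphisms commuting with `𝔤 ℓ`, so by the lattice condition they are contained in the image of `Λ_N`; so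
`β(d) = 0` for all of them.  It follows that `𝔥` is reductive.
(6) Let `Q` be the lattice generated by the roots of `𝔥`.  The sum of the weight spaces for all weights in one
class modulo `Q` is stable under `𝔥`.  Hence `N` preserves the classes: the image of `Λ_N`, and so all the roots of
`𝔤 ℓ`, are contained in `Q`.  Finally a reductive subalgebra of maximal rank whose roots generate a lattice which
contains all roots is equal to `𝔤 ℓ`: write a root `α` of `𝔤 ℓ`, not of `𝔥`, as a sum of `n` roots of `𝔥`; there
is a summand `β` with `⟨β, α^∨⟩ > 0`, so `α - β` is a root of `𝔤 ℓ`, not of `𝔥`, and a sum of `n - 1` roots of
`𝔥`.
-/

set_option autoImplicit false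

namespace Pool.Agent.Results.MP_3703a7_ag.ZeroOneLaw

open NumberField IsDedekindDomain Polynomial Module Pool.Agent.Y114.TF Pool.Agent.Y114.GF
  Pool.Agent.Y114.MU Pool.Agent.Y114.RM Pool.Agent.R931.GD Pool.Agent.R931.ZL Pool.Agent.R931.PD
  Pool.Agent.R931.ZF Pool.Agent.R931.ZG

theorem result (K : Type) [Field K] [NumberField K] (Γ : Type) [Group Γ] [TopologicalSpace Γ]
    [IsTopologicalGroup Γ] [CompactSpace Γ] (s : Gal(AlgebraicClosure K/K) →* Γ)
    (hs : Continuous s)
    -- the `ℓ`-adic realizations
    (N : ℕ) (hN : 0 < N)
    (ρ : ∀ (ℓ : ℕ) [Fact ℓ.Prime], Rep1 Γ N ℓ) (hρ : ∀ (ℓ : ℕ) [Fact ℓ.Prime], Conts (ρ ℓ))
    -- good reduction outside of a finite set of places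
    (wt : ℤ) (c : ℕ) (S : Set (HeightOneSpectrum (𝓞 K))) (hS : S.Finite)
    (P : HeightOneSpectrum (𝓞 K) → ℚ[X])
    (hP : ∀ (ℓ : ℕ) [Fact ℓ.Prime], ∀ v ∉ S, ¬ Above v ℓ →
      GoodReduction (restrictTo (ρ ℓ) s) () wt v (P v))
    (hint : ∀ v ∉ S, IntegralAt c v (P v))
    -- the Lie algebras of the motivic Galois groups, of rank `r`
    (𝔤 : ∀ (ℓ : ℕ) [Fact ℓ.Prime], End1 N ℓ) (h𝔤 : ∀ (ℓ : ℕ) [Fact ℓ.Prime], Motivic (ρ ℓ) (𝔤 ℓ))
    (r : ℕ) (hrank : ∀ (ℓ : ℕ) [Fact ℓ.Prime], RankLE (𝔤 ℓ) r)
    -- the relations between the weights
    (R : Set (Fin N → ℤ)) (hR : RankGE r R)
    -- the types at some prime numbers
    (J : Type) (T : J → Set (Equiv.Perm (Fin N))) (hne : ∃ j, (T j).Nonempty)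
    (p : J → ℕ) [∀ j, Fact (p j).Prime] (τ : ∀ j, Gal(PadicAlgCl (p j)/ℚ_[p j]))
    (htypes : ∀ j, ∀ a ∈ T j, TypeOccurs s (ρ (p j)) R (τ j) a)
    -- the condition on the permutation groups
    (m : ℕ) (hend : ∀ (ℓ : ℕ) [Fact ℓ.Prime], m ≤ commutantDim (𝔤 ℓ))
    (hm : Forces (relAut R) T (LatticeFull R m)) :
    HasDensityZero {ℓ | ∃ _ : Fact ℓ.Prime,
      ¬ (Semisimple (ρ ℓ) ∧ TateTensorsOf (ρ ℓ) (𝔤 ℓ))} :=
  main_law (K := K) (Γ := Γ) (s := s) (N := N) (wt := wt) (c := c) (r := r) (S := S) (P := P)
    (ρ := ρ) (𝔤 := 𝔤) ⟨hN, hs, hρ, hS, hP, hint, h𝔤, hrank⟩ R hR T hne p τ htypes m hm hend

end Pool.Agent.Results.MP_3703a7_ag.ZeroOneLaw
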